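import Mathlib

/-!
# Monotone non-homotopic drawings: the combinatorial bound

An abstract edge `(i, j, S)` stands for an x-monotone curve from the `i`-th vertex to the `j`-th
vertex that passes above the vertices in `S` and below the other vertices between `i` and `j`.
-/

namespace Pool.Agent.X64.Mono

open Finset

abbrev Ed := ℕ × ℕ × Finset ℕ

/-- position of the edge relative to the vertex `p`: `0` at, `1` above, `-1` below -/
def ht (e : Ed) (p : ℕ) : ℤ := if p = e.1 ∨ p = e.2.1 then 0 else if p ∈ e.2.2 then 1 else -1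

structure WF (n : ℕ) (e : Ed) : Prop where
  lt : e.1 < e.2.1
  le : e.2.1 < n
  mem : ∀ p ∈ e.2.2, e.1 < p ∧ p < e.2.1

def In (e : Ed) (p : ℕ) : Prop := e.1 ≤ p ∧ p ≤ e.2.1

/-- `l` is an increasing sequence of positions at which the difference of `e` and `f` is nonzero,
with alternating signs. -/
def Alt (e f : Ed) (l : List ℕ) : Prop :=
  (∀ p ∈ l, In e p ∧ In f p ∧ ht e p ≠ ht f p) ∧
  l.IsChain (fun p p' => p < p' ∧ (ht e p - ht f p) * (ht e p' - ht f p') < 0)

def NoAlt (q : ℕ) (F : Finset Ed) : Prop :=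
  ∀ e ∈ F, ∀ f ∈ F, e ≠ f → ∀ l, Alt e f l → l.length < q

theorem NoAlt.mono {q : ℕ} {F G : Finset Ed} (h : NoAlt q F) (hG : G ⊆ F) : NoAlt q G :=
  fun e he f hf => h e (hG he) f (hG hf)

theorem alt_nil (e f : Ed) : Alt e f [] := ⟨by simp, List.isChain_nil⟩

theorem card_le_one_of_noAlt_zero {F : Finset Ed} (h : NoAlt 0 F) : F.card ≤ 1 := by
  rw [Finset.card_le_one]
  intro a ha b hb
  by_contra hne
  have := h a ha b hb hne [] (alt_nil a b)
  omega

/-- Two different edges with the same left end differ at some vertex. -/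
theorem exists_alt_one {n : ℕ} {e f : Ed} (he : WF n e) (hf : WF n f) (h0 : e.1 = f.1)
    (hne : e ≠ f) : ∃ p, Alt e f [p] := by
  obtain ⟨i, j, S⟩ := e
  obtain ⟨i', j', S'⟩ := f
  simp only at h0
  subst h0
  have h1 := he.lt; have h2 := hf.lt
  simp only at h1 h2
  have key : ∃ p, In (i, j, S) p ∧ In (i, j', S') p ∧ ht (i, j, S) p ≠ ht (i, j', S') p := by
    rcases lt_trichotomy j j' with h | h | h
    · refine ⟨j, ⟨h1.le, le_rfl⟩, ⟨h1.le, h.le⟩, ?_⟩
      simp only [ht]
      rw [if_pos (Or.inr trivial), if_neg (by omega)]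
      split_ifs <;> decide
    · subst h
      have hS : S ≠ S' := fun h => hne (by rw [h])
      obtain ⟨p, hp⟩ : ∃ p, ¬ (p ∈ S ↔ p ∈ S') := by
        by_contra hcon
        push Not at hcon
        exact hS (Finset.ext hcon)
      have hb : i < p ∧ p < j := by
        by_cases hpS : p ∈ S
        · exact he.mem p hpS
        · have : p ∈ S' := by tauto
          exact hf.mem p this
      refine ⟨p, ⟨hb.1.le, hb.2.le⟩, ⟨hb.1.le, hb.2.le⟩, ?_⟩
      simp only [ht]
      have hpij : ¬ (p = i ∨ p = j) := by omega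
      rw [if_neg hpij, if_neg hpij]
      by_cases hpS : p ∈ S
      · have : p ∉ S' := by tauto
        rw [if_pos hpS, if_neg this]; decide
      · have : p ∈ S' := by tauto
        rw [if_neg hpS, if_pos this]; decide
    · refine ⟨j', ⟨h2.le, h.le⟩, ⟨h2.le, le_rfl⟩, ?_⟩
      simp only [ht]
      rw [if_neg (by omega), if_pos (Or.inr trivial)]
      split_ifs <;> decide
  obtain ⟨p, hp⟩ := key
  refine ⟨p, ?_, List.isChain_singleton _⟩
  intro p' hp'
  rw [List.mem_singleton] at hp'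
  subst hp'
  exact hp

theorem card_le_one_of_noAlt_one {n : ℕ} {F : Finset Ed} (hF : ∀ e ∈ F, WF n e ∧ e.1 = 0)
    (h : NoAlt 1 F) : F.card ≤ 1 := by
  rw [Finset.card_le_one]
  intro a ha b hb
  by_contra hne
  obtain ⟨p, hp⟩ := exists_alt_one (hF a ha).1 (hF b hb).1
    ((hF a ha).2.trans (hF b hb).2.symm) hne
  have := h a ha b hb hne _ hp
  simp at this

/-- `x'` is a lift of `x`: it agrees with `x` at the positions below `n`. -/
def Lift (n : ℕ) (x x' : Ed) : Prop := ∀ p < n, In x p → In x' p ∧ ht x' p = ht x p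

theorem Alt.lift {n : ℕ} {x y x' y' : Ed} {l : List ℕ} (h : Alt x y l) (hl : ∀ p ∈ l, p < n)
    (hx : Lift n x x') (hy : Lift n y y') : Alt x' y' l := by
  refine ⟨fun p hp => ?_, ?_⟩
  · obtain ⟨h1, h2, h3⟩ := h.1 p hp
    obtain ⟨h4, h5⟩ := hx p (hl p hp) h1
    obtain ⟨h6, h7⟩ := hy p (hl p hp) h2
    exact ⟨h4, h6, by rw [h5, h7]; exact h3⟩
  · refine h.2.imp_of_mem_imp ?_
    intro a b ha hb hab
    obtain ⟨h1, h2, h3⟩ := h.1 a ha
    obtain ⟨h1', h2', h3'⟩ := h.1 b hb
    rw [(hx a (hl a ha) h1).2, (hy a (hl a ha) h2).2, (hx b (hl b hb) h1').2,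
      (hy b (hl b hb) h2').2]
    exact hab

/-- If both orders are available at the new position `n`, an alternating sequence can be
extended. -/
theorem extend {n q : ℕ} {F : Finset Ed} (hN : NoAlt (q + 1) F) {x y : Ed}
    {l : List ℕ} (h : Alt x y l) (hl : ∀ p ∈ l, p < n)
    (c1 : ∃ x' ∈ F, ∃ y' ∈ F, Lift n x x' ∧ Lift n y y' ∧ In x' n ∧ In y' n ∧ ht x' n < ht y' n)
    (c2 : ∃ x' ∈ F, ∃ y' ∈ F, Lift n x x' ∧ Lift n y y' ∧ In x' n ∧ In y' n ∧ ht y' n < ht x' n) :
    l.length < q := by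
  rcases List.eq_nil_or_concat l with rfl | ⟨l', p, rfl⟩
  · obtain ⟨x', hx', y', hy', lx, ly, ix, iy, hlt⟩ := c1
    have hne : x' ≠ y' := by rintro rfl; omega
    have := hN x' hx' y' hy' hne [n] ⟨by
      intro p hp
      rw [List.mem_singleton] at hp
      subst hp
      exact ⟨ix, iy, hlt.ne⟩, List.isChain_singleton _⟩
    simpa using this
  · rw [List.concat_eq_append] at *
    have hp := h.1 p (by simp)
    have hpn : p < n := hl p (by simp)
    rcases lt_or_gt_of_ne hp.2.2 with hlt | hlt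
    · obtain ⟨x', hx', y', hy', lx, ly, ix, iy, hlt'⟩ := c2
      have hne : x' ≠ y' := by rintro rfl; omega
      have h2 := h.lift hl lx ly
      have := hN x' hx' y' hy' hne (l' ++ [p] ++ [n]) ⟨by
        intro r hr
        rcases List.mem_append.1 hr with hr | hr
        · exact h2.1 r hr
        · rw [List.mem_singleton] at hr
          subst hr
          exact ⟨ix, iy, hlt'.ne'⟩, by
        rw [List.isChain_append]
        refine ⟨h2.2, List.isChain_singleton _, ?_⟩
        intro a ha b hb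
        simp only [List.getLast?_append, List.getLast?_singleton, Option.mem_def] at ha
        simp only [List.head?_cons, Option.mem_def, Option.some.injEq] at hb
        have ha' : a = p := by simpa using ha.symm
        subst ha' hb
        refine ⟨hpn, ?_⟩
        rw [(lx a hpn hp.1).2, (ly a hpn hp.2.1).2]
        exact mul_neg_of_neg_of_pos (by omega) (by omega)⟩
      simp only [List.length_append, List.length_singleton] at this ⊢
      omega
    · obtain ⟨x', hx', y', hy', lx, ly, ix, iy, hlt'⟩ := c1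
      have hne : x' ≠ y' := by rintro rfl; omega
      have h2 := h.lift hl lx ly
      have := hN x' hx' y' hy' hne (l' ++ [p] ++ [n]) ⟨by
        intro r hr
        rcases List.mem_append.1 hr with hr | hr
        · exact h2.1 r hr
        · rw [List.mem_singleton] at hr
          subst hr
          exact ⟨ix, iy, hlt'.ne⟩, by
        rw [List.isChain_append]
        refine ⟨h2.2, List.isChain_singleton _, ?_⟩
        intro a ha b hb
        simp only [List.getLast?_append, List.getLast?_singleton, Option.mem_def] at ha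
        simp only [List.head?_cons, Option.mem_def, Option.some.injEq] at hb
        have ha' : a = p := by simpa using ha.symm
        subst ha' hb
        refine ⟨hpn, ?_⟩
        rw [(lx a hpn hp.1).2, (ly a hpn hp.2.1).2]
        exact mul_neg_of_pos_of_neg (by omega) (by omega)⟩
      simp only [List.length_append, List.length_singleton] at this ⊢
      omega

/-- moving the right end `n + 1` to `n` -/
def pr (n : ℕ) (e : Ed) : Ed := (e.1, n, e.2.2.erase n)

theorem lift_pr {n : ℕ} {e : Ed} (he : e.2.1 = n + 1) : Lift n (pr n e) e := by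
  intro p hp hin
  have h1 : e.1 ≤ p := hin.1
  refine ⟨⟨h1, by omega⟩, ?_⟩
  simp only [ht, pr, Finset.mem_erase]
  have h2 : p ≠ n := by omega
  have h3 : p ≠ e.2.1 := by omega
  simp [h2, h3]

theorem lift_self (n : ℕ) (e : Ed) : Lift n e e := fun _ _ h => ⟨h, rfl⟩

theorem merge {n q : ℕ} {F : Finset Ed} (hWF : ∀ e ∈ F, WF (n + 2) e) (hN : NoAlt (q + 1) F) :
    ∃ F' A1 A2 : Finset Ed, (∀ e ∈ F', WF (n + 1) e) ∧ NoAlt (q + 1) F' ∧
      (∀ e ∈ A1, WF (n + 1) e ∧ e.2.1 = n) ∧ (∀ e ∈ A2, WF (n + 1) e ∧ e.2.1 = n) ∧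
      NoAlt q A1 ∧ NoAlt q A2 ∧
      F.card ≤ F'.card + A1.card + A2.card + 1 ∧
      ((∀ e ∈ F, e.1 ≠ n) → F.card ≤ F'.card + A1.card + A2.card) ∧
      ((∀ e ∈ F, e.1 = 0) → (∀ e ∈ F', e.1 = 0) ∧ (∀ e ∈ A1, e.1 = 0) ∧ (∀ e ∈ A2, e.1 = 0)) ∧
      ((∀ e ∈ F, e.2.1 = n + 1) → A2 = ∅ ∧ ∀ e ∈ F', e.2.1 = n) := by
  classical
  set Fa := F.filter (fun e => e.2.1 ≤ n) with hFa
  set Fb := F.filter (fun e => e.2.1 = n + 1 ∧ e.1 < n ∧ n ∈ e.2.2) with hFb
  set Fc := F.filter (fun e => e.2.1 = n + 1 ∧ e.1 < n ∧ n ∉ e.2.2) with hFc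
  set F0 := F.filter (fun e => e.1 = n) with hF0
  set B := Fb.image (pr n) with hB
  set C := Fc.image (pr n) with hC
  -- basic membership facts
  have mem_a : ∀ x ∈ Fa, x ∈ F ∧ x.2.1 ≤ n := fun x hx => by simpa [hFa] using hx
  have mem_b : ∀ x ∈ B, ∃ x' ∈ F, x'.2.1 = n + 1 ∧ x'.1 < n ∧ n ∈ x'.2.2 ∧ pr n x' = x := by
    intro x hx
    obtain ⟨x', hx', rfl⟩ := Finset.mem_image.1 hx
    rw [hFb, Finset.mem_filter] at hx'
    exact ⟨x', hx'.1, hx'.2.1, hx'.2.2.1, hx'.2.2.2, rfl⟩
  have mem_c : ∀ x ∈ C, ∃ x' ∈ F, x'.2.1 = n + 1 ∧ x'.1 < n ∧ n ∉ x'.2.2 ∧ pr n x' = x := by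
    intro x hx
    obtain ⟨x', hx', rfl⟩ := Finset.mem_image.1 hx
    rw [hFc, Finset.mem_filter] at hx'
    exact ⟨x', hx'.1, hx'.2.1, hx'.2.2.1, hx'.2.2.2, rfl⟩
  have wf_pr : ∀ x ∈ F, x.2.1 = n + 1 → x.1 < n → WF (n + 1) (pr n x) := by
    intro x hx h1 h2
    refine ⟨h2, Nat.lt_succ_self n, ?_⟩
    intro p hp
    simp only [pr, Finset.mem_erase] at hp
    have := (hWF x hx).mem p hp.2
    exact ⟨this.1, by show p < n; omega⟩
  have wf_a : ∀ x ∈ Fa, WF (n + 1) x := fun x hx =>
    ⟨(hWF x (mem_a x hx).1).lt, Nat.lt_succ_of_le (mem_a x hx).2, (hWF x (mem_a x hx).1).mem⟩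
  have wf_b : ∀ x ∈ B, WF (n + 1) x ∧ x.2.1 = n := by
    intro x hx
    obtain ⟨x', h1, h2, h3, -, rfl⟩ := mem_b x hx
    exact ⟨wf_pr x' h1 h2 h3, rfl⟩
  have wf_c : ∀ x ∈ C, WF (n + 1) x ∧ x.2.1 = n := by
    intro x hx
    obtain ⟨x', h1, h2, h3, -, rfl⟩ := mem_c x hx
    exact ⟨wf_pr x' h1 h2 h3, rfl⟩
  -- lifts
  have lift_a : ∀ x ∈ Fa, x.2.1 = n → ∃ x' ∈ F, Lift n x x' ∧ In x' n ∧ ht x' n = 0 := by
    intro x hx h1
    refine ⟨x, (mem_a x hx).1, lift_self n x, ⟨?_, h1.ge⟩, ?_⟩
    · have := (wf_a x hx).lt; omega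
    · simp [ht, h1]
  have lift_b : ∀ x ∈ B, ∃ x' ∈ F, Lift n x x' ∧ In x' n ∧ ht x' n = 1 := by
    intro x hx
    obtain ⟨x', h1, h2, h3, h4, rfl⟩ := mem_b x hx
    refine ⟨x', h1, lift_pr h2, ⟨h3.le, by omega⟩, ?_⟩
    simp only [ht]
    rw [if_neg (by omega), if_pos h4]
  have lift_c : ∀ x ∈ C, ∃ x' ∈ F, Lift n x x' ∧ In x' n ∧ ht x' n = -1 := by
    intro x hx
    obtain ⟨x', h1, h2, h3, h4, rfl⟩ := mem_c x hx
    refine ⟨x', h1, lift_pr h2, ⟨h3.le, by omega⟩, ?_⟩
    simp only [ht]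
    rw [if_neg (by omega), if_neg h4]
  -- positions of alternating sequences
  have pos_lt : ∀ x y : Ed, WF (n + 1) x → WF (n + 1) y → ∀ l, Alt x y l → ∀ p ∈ l, p < n := by
    intro x y hx hy l hl p hp
    obtain ⟨h1, h2, h3⟩ := hl.1 p hp
    have h4 := hx.le
    have h5 := hy.le
    have h6 := h1.2
    have h7 := h2.2
    rcases Nat.lt_or_ge p n with h | h
    · exact h
    exfalso
    have e1 : p = x.2.1 := by omega
    have e2 : p = y.2.1 := by omega
    apply h3
    simp only [ht]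
    rw [if_pos (Or.inr e1), if_pos (Or.inr e2)]
  refine ⟨Fa ∪ B ∪ C, (Fa ∪ C) ∩ B, Fa ∩ C, ?_, ?_, ?_, ?_, ?_, ?_, ?_⟩
  · intro x hx
    rw [Finset.mem_union, Finset.mem_union] at hx
    rcases hx with (hx | hx) | hx
    · exact wf_a x hx
    · exact (wf_b x hx).1
    · exact (wf_c x hx).1
  · -- `F'`
    have wfU : ∀ x ∈ Fa ∪ B ∪ C, WF (n + 1) x ∧ ∃ x' ∈ F, Lift n x x' := by
      intro x hx
      rw [Finset.mem_union, Finset.mem_union] at hx
      rcases hx with (hx | hx) | hx
      · exact ⟨wf_a x hx, x, (mem_a x hx).1, lift_self n x⟩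
      · obtain ⟨x', h1, h2, -⟩ := lift_b x hx
        exact ⟨(wf_b x hx).1, x', h1, h2⟩
      · obtain ⟨x', h1, h2, -⟩ := lift_c x hx
        exact ⟨(wf_c x hx).1, x', h1, h2⟩
    intro x hx y hy hxy l hl
    obtain ⟨wx, x', hx', lx⟩ := wfU x hx
    obtain ⟨wy, y', hy', ly⟩ := wfU y hy
    have hp := pos_lt x y wx wy l hl
    rcases l with _ | ⟨p, l⟩
    · simp
    have h2 := hl.lift hp lx ly
    have hne : x' ≠ y' := by
      rintro rfl
      exact (h2.1 p (by simp)).2.2 rfl
    exact hN x' hx' y' hy' hne _ h2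
  · intro x hx
    exact wf_b x (Finset.mem_inter.1 hx).2
  · intro x hx
    exact wf_c x (Finset.mem_inter.1 hx).2
  · -- `A1`
    intro x hx y hy hxy l hl
    rw [Finset.mem_inter, Finset.mem_union] at hx hy
    have wx := (wf_b x hx.2)
    have wy := (wf_b y hy.2)
    have hp := pos_lt x y wx.1 wy.1 l hl
    have low : ∀ z, (z ∈ Fa ∨ z ∈ C) → z.2.1 = n →
        ∃ z' ∈ F, Lift n z z' ∧ In z' n ∧ ht z' n ≤ 0 := by
      intro z hz h1
      rcases hz with hz | hz
      · obtain ⟨z', a, b, c, d⟩ := lift_a z hz h1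
        exact ⟨z', a, b, c, d.le⟩
      · obtain ⟨z', a, b, c, d⟩ := lift_c z hz
        exact ⟨z', a, b, c, by omega⟩
    refine extend hN hl hp ?_ ?_
    · obtain ⟨x', a, b, c, d⟩ := low x hx.1 wx.2
      obtain ⟨y', a', b', c', d'⟩ := lift_b y hy.2
      exact ⟨x', a, y', a', b, b', c, c', by omega⟩
    · obtain ⟨x', a, b, c, d⟩ := lift_b x hx.2
      obtain ⟨y', a', b', c', d'⟩ := low y hy.1 wy.2
      exact ⟨x', a, y', a', b, b', c, c', by omega⟩
  · -- `A2`
    intro x hx y hy hxy l hl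
    rw [Finset.mem_inter] at hx hy
    have wx := (wf_c x hx.2)
    have wy := (wf_c y hy.2)
    have hp := pos_lt x y wx.1 wy.1 l hl
    refine extend hN hl hp ?_ ?_
    · obtain ⟨x', a, b, c, d⟩ := lift_c x hx.2
      obtain ⟨y', a', b', c', d'⟩ := lift_a y hy.1 wy.2
      exact ⟨x', a, y', a', b, b', c, c', by omega⟩
    · obtain ⟨x', a, b, c, d⟩ := lift_a x hx.1 wx.2
      obtain ⟨y', a', b', c', d'⟩ := lift_c y hy.2
      exact ⟨x', a, y', a', b, b', c, c', by omega⟩
  -- counting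
  have inj_b : B.card = Fb.card := by
    refine Finset.card_image_of_injOn ?_
    intro x hx y hy hxy
    rw [Finset.mem_coe, hFb, Finset.mem_filter] at hx hy
    obtain ⟨x1, x2, x3⟩ := x
    obtain ⟨y1, y2, y3⟩ := y
    simp only [pr, Prod.mk.injEq, true_and] at hxy hx hy ⊢
    refine ⟨hxy.1, by omega, ?_⟩
    rw [← Finset.insert_erase hx.2.2.2, ← Finset.insert_erase hy.2.2.2, hxy.2]
  have inj_c : C.card = Fc.card := by
    refine Finset.card_image_of_injOn ?_
    intro x hx y hy hxy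
    rw [Finset.mem_coe, hFc, Finset.mem_filter] at hx hy
    obtain ⟨x1, x2, x3⟩ := x
    obtain ⟨y1, y2, y3⟩ := y
    simp only [pr, Prod.mk.injEq, true_and] at hxy hx hy ⊢
    refine ⟨hxy.1, by omega, ?_⟩
    rw [← Finset.erase_eq_of_notMem hx.2.2.2, ← Finset.erase_eq_of_notMem hy.2.2.2, hxy.2]
  have hcover : F ⊆ Fa ∪ Fb ∪ Fc ∪ F0 := by
    intro x hx
    have h1 := (hWF x hx).le
    have h2 := (hWF x hx).lt
    simp only [Finset.mem_union, hFa, hFb, hFc, hF0, Finset.mem_filter, hx, true_and]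
    by_cases h3 : x.2.1 ≤ n
    · exact Or.inl (Or.inl (Or.inl h3))
    by_cases h4 : x.1 = n
    · exact Or.inr h4
    by_cases h5 : n ∈ x.2.2
    · exact Or.inl (Or.inl (Or.inr ⟨by omega, by omega, h5⟩))
    · exact Or.inl (Or.inr ⟨by omega, by omega, h5⟩)
  have hcard1 : F.card ≤ Fa.card + Fb.card + Fc.card + F0.card := by
    refine (Finset.card_le_card hcover).trans ?_
    refine (Finset.card_union_le _ _).trans ?_
    have h1 := Finset.card_union_le (Fa ∪ Fb) Fc
    have h2 := Finset.card_union_le Fa Fb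
    omega
  have hcard2 : Fa.card + B.card + C.card =
      (Fa ∪ B ∪ C).card + ((Fa ∪ C) ∩ B).card + (Fa ∩ C).card := by
    have h1 := Finset.card_union_add_card_inter (Fa ∪ C) B
    have h2 := Finset.card_union_add_card_inter Fa C
    have h3 : Fa ∪ B ∪ C = Fa ∪ C ∪ B := by
      ext; simp only [Finset.mem_union]; tauto
    rw [h3]
    omega
  have hF0card : F0.card ≤ 1 := by
    rw [Finset.card_le_one]
    have key : ∀ a ∈ F0, a = (n, n + 1, ∅) := by
      intro a ha
      rw [hF0, Finset.mem_filter] at ha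
      have h1 := (hWF a ha.1).le
      have h2 := (hWF a ha.1).lt
      have h3 := (hWF a ha.1).mem
      obtain ⟨a1, a2, a3⟩ := a
      simp only at ha h1 h2 h3
      have e1 : a1 = n := ha.2
      have e2 : a2 = n + 1 := by omega
      subst e1 e2
      have e3 : a3 = ∅ := by
        rw [Finset.eq_empty_iff_forall_notMem]
        intro p hp
        have := h3 p hp
        omega
      rw [e3]
    intro a ha b hb
    rw [key a ha, key b hb]
  refine ⟨by omega, ?_, ?_, ?_⟩
  · intro hne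
    have : F0 = ∅ := by
      rw [Finset.eq_empty_iff_forall_notMem]
      intro a ha
      rw [hF0, Finset.mem_filter] at ha
      exact hne a ha.1 ha.2
    rw [this, Finset.card_empty] at hcard1
    omega
  · intro h0
    have ha : ∀ e ∈ Fa, e.1 = 0 := fun e he => h0 e (mem_a e he).1
    have hb : ∀ e ∈ B, e.1 = 0 := by
      intro e he
      obtain ⟨x', h1, -, -, -, rfl⟩ := mem_b e he
      exact h0 x' h1
    have hc : ∀ e ∈ C, e.1 = 0 := by
      intro e he
      obtain ⟨x', h1, -, -, -, rfl⟩ := mem_c e he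
      exact h0 x' h1
    refine ⟨?_, ?_, ?_⟩
    · intro e he
      rw [Finset.mem_union, Finset.mem_union] at he
      rcases he with (he | he) | he
      exacts [ha e he, hb e he, hc e he]
    · intro e he
      exact hb e (Finset.mem_inter.1 he).2
    · intro e he
      exact hc e (Finset.mem_inter.1 he).2
  · intro h1
    have hFa0 : Fa = ∅ := by
      rw [Finset.eq_empty_iff_forall_notMem]
      intro a ha
      have h2 := h1 a (mem_a a ha).1
      have h3 := (mem_a a ha).2
      omega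
    refine ⟨by rw [hFa0, Finset.empty_inter], ?_⟩
    intro e he
    rw [hFa0, Finset.empty_union, Finset.mem_union] at he
    rcases he with he | he
    exacts [(wf_b e he).2, (wf_c e he).2]

theorem P_bound (N : ℕ) : ∀ (q : ℕ) (F : Finset Ed),
    (∀ e ∈ F, WF (N + 2) e ∧ e.1 = 0 ∧ e.2.1 = N + 1) → NoAlt (q + 1) F →
    F.card ≤ ∑ l ∈ range (q + 1), N.choose l := by
  induction N with
  | zero =>
    intro q F hF _
    have h1 : F.card ≤ 1 := by
      rw [Finset.card_le_one]
      have key : ∀ a ∈ F, a = (0, 1, ∅) := by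
        intro a ha
        obtain ⟨h1, h2, h3⟩ := hF a ha
        have h4 := h1.mem
        obtain ⟨a1, a2, a3⟩ := a
        simp only at h2 h3 h4
        subst h2
        have h5 : a2 = 1 := by omega
        subst h5
        have e3 : a3 = ∅ := by
          rw [Finset.eq_empty_iff_forall_notMem]
          intro p hp
          have := h4 p hp
          omega
        rw [e3]
      intro a ha b hb
      rw [key a ha, key b hb]
    rw [Finset.sum_range_succ']
    simp only [Nat.choose_zero_right]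
    omega
  | succ N ih =>
    intro q F hF hN
    rcases q with _ | q
    · have h1 := card_le_one_of_noAlt_one (n := N + 1 + 2) (fun e he => ⟨(hF e he).1, (hF e he).2.1⟩) hN
      simpa using h1
    obtain ⟨F', A1, A2, h1, h2, h3, h4, h5, h6, h7, h8, h9, h10⟩ :=
      merge (n := N + 1) (q := q + 1) (F := F) (fun e he => (hF e he).1) hN
    have h8' := h8 (fun e he => by rw [(hF e he).2.1]; omega)
    obtain ⟨h9a, h9b, -⟩ := h9 (fun e he => (hF e he).2.1)
    obtain ⟨h10a, h10b⟩ := h10 (fun e he => (hF e he).2.2)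
    have i1 := ih (q + 1) F' (fun e he => ⟨h1 e he, h9a e he, h10b e he⟩) h2
    have i2 := ih q A1 (fun e he => ⟨(h3 e he).1, h9b e he, (h3 e he).2⟩) h5
    rw [h10a, Finset.card_empty] at h8'
    have hs : ∑ l ∈ range (q + 1 + 1), (N + 1).choose l
        = ∑ l ∈ range (q + 1 + 1), N.choose l + ∑ l ∈ range (q + 1), N.choose l := by
      rw [Finset.sum_range_succ' _ (q + 1), Finset.sum_range_succ' (fun l => N.choose l) (q + 1)]
      simp only [Nat.choose_succ_succ, Nat.choose_zero_right, Finset.sum_add_distrib]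
      ring
    omega

theorem G_bound (N : ℕ) : ∀ (q : ℕ) (F : Finset Ed),
    (∀ e ∈ F, WF (N + 2) e ∧ e.1 = 0) → NoAlt (q + 1) F →
    F.card ≤ 1 + 2 * ∑ l ∈ range q, N.choose (l + 1) := by
  induction N with
  | zero =>
    intro q F hF _
    have h1 : F.card ≤ 1 := by
      rw [Finset.card_le_one]
      have key : ∀ a ∈ F, a = (0, 1, ∅) := by
        intro a ha
        obtain ⟨h1, h2⟩ := hF a ha
        have h4 := h1.mem
        have h5 := h1.lt
        have h6 := h1.le
        obtain ⟨a1, a2, a3⟩ := a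
        simp only at h2 h4 h5 h6
        subst h2
        have h5 : a2 = 1 := by omega
        subst h5
        have e3 : a3 = ∅ := by
          rw [Finset.eq_empty_iff_forall_notMem]
          intro p hp
          have := h4 p hp
          omega
        rw [e3]
      intro a ha b hb
      rw [key a ha, key b hb]
    omega
  | succ N ih =>
    intro q F hF hN
    rcases q with _ | q
    · have h1 := card_le_one_of_noAlt_one (n := N + 1 + 2) (fun e he => hF e he) hN
      omega
    obtain ⟨F', A1, A2, h1, h2, h3, h4, h5, h6, h7, h8, h9, h10⟩ :=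
      merge (n := N + 1) (q := q + 1) (F := F) (fun e he => (hF e he).1) hN
    have h8' := h8 (fun e he => by rw [(hF e he).2]; omega)
    obtain ⟨h9a, h9b, h9c⟩ := h9 (fun e he => (hF e he).2)
    have i1 := ih (q + 1) F' (fun e he => ⟨h1 e he, h9a e he⟩) h2
    have i2 := P_bound N q A1 (fun e he => ⟨(h3 e he).1, h9b e he, (h3 e he).2⟩) h5
    have i3 := P_bound N q A2 (fun e he => ⟨(h4 e he).1, h9c e he, (h4 e he).2⟩) h6
    have hs : ∑ l ∈ range (q + 1), (N + 1).choose (l + 1)
        = ∑ l ∈ range (q + 1), N.choose (l + 1) + ∑ l ∈ range (q + 1), N.choose l := by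
      simp only [Nat.choose_succ_succ, Finset.sum_add_distrib]
      ring
    omega

/-! ### Reflection -/

def refl (m : ℕ) (e : Ed) : Ed := (m - e.2.1, m - e.1, e.2.2.image (fun p => m - p))

theorem refl_wf {m : ℕ} {e : Ed} (he : WF (m + 1) e) : WF (m + 1) (refl m e) := by
  have h1 := he.lt
  have h2 := he.le
  refine ⟨by show m - e.2.1 < m - e.1; omega, by show m - e.1 < m + 1; omega, ?_⟩
  intro p hp
  obtain ⟨p', hp', rfl⟩ := Finset.mem_image.1 hp
  have := he.mem p' hp'
  show m - e.2.1 < m - p' ∧ m - p' < m - e.1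
  omega

theorem refl_refl {m : ℕ} {e : Ed} (he : WF (m + 1) e) : refl m (refl m e) = e := by
  obtain ⟨i, j, S⟩ := e
  have h1 := he.lt
  have h2 := he.le
  have h3 := he.mem
  simp only at h1 h2 h3
  simp only [refl, Prod.mk.injEq]
  refine ⟨by omega, by omega, ?_⟩
  ext p
  simp only [Finset.mem_image, exists_exists_and_eq_and]
  constructor
  · rintro ⟨a, ha, rfl⟩
    have := h3 a ha
    rwa [show m - (m - a) = a by omega]
  · intro hp
    have := h3 p hp
    exact ⟨p, hp, by omega⟩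

theorem ht_refl {m : ℕ} {e : Ed} (he : WF (m + 1) e) {p : ℕ} (hp : p ≤ m) :
    ht (refl m e) p = ht e (m - p) := by
  have h1 := he.lt
  have h2 := he.le
  simp only [ht, refl]
  have h4 : (p = m - e.2.1 ∨ p = m - e.1) ↔ (m - p = e.1 ∨ m - p = e.2.1) := by omega
  have h5 : (p ∈ e.2.2.image (fun p => m - p)) ↔ (m - p ∈ e.2.2) := by
    rw [Finset.mem_image]
    constructor
    · rintro ⟨a, ha, rfl⟩
      have := he.mem a ha
      rwa [show m - (m - a) = a by omega]
    · intro h
      exact ⟨m - p, h, by omega⟩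
  simp only [h4, h5]

theorem alt_refl {m : ℕ} {e f : Ed} (he : WF (m + 1) e) (hf : WF (m + 1) f) {l : List ℕ}
    (hl : Alt (refl m e) (refl m f) l) : Alt e f (l.map (fun p => m - p)).reverse := by
  have h1 := he.lt; have h2 := he.le; have h3 := hf.lt; have h4 := hf.le
  have hpm : ∀ p ∈ l, p ≤ m := by
    intro p hp
    have := (hl.1 p hp).1.2
    have h5 : p ≤ m - e.1 := this
    omega
  refine ⟨?_, ?_⟩
  · intro p hp
    rw [List.mem_reverse, List.mem_map] at hp
    obtain ⟨a, ha, rfl⟩ := hp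
    obtain ⟨h5, h6, h7⟩ := hl.1 a ha
    have h5a : m - e.2.1 ≤ a := h5.1
    have h5b : a ≤ m - e.1 := h5.2
    have h6a : m - f.2.1 ≤ a := h6.1
    have h6b : a ≤ m - f.1 := h6.2
    refine ⟨⟨by omega, by omega⟩, ⟨by omega, by omega⟩, ?_⟩
    rw [← ht_refl he (hpm a ha), ← ht_refl hf (hpm a ha)]
    exact h7
  · rw [List.isChain_reverse, List.isChain_map]
    refine hl.2.imp_of_mem_imp ?_
    intro a b ha hb hab
    have h5 := hpm a ha
    have h6 := hpm b hb
    refine ⟨?_, ?_⟩
    · show m - b < m - a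
      omega
    · show (ht e (m - b) - ht f (m - b)) * (ht e (m - a) - ht f (m - a)) < 0
      rw [← ht_refl he h5, ← ht_refl hf h5, ← ht_refl he h6, ← ht_refl hf h6, mul_comm]
      exact hab.2

theorem GR_bound (N : ℕ) (q : ℕ) (F : Finset Ed)
    (hF : ∀ e ∈ F, WF (N + 2) e ∧ e.2.1 = N + 1) (hN : NoAlt (q + 1) F) :
    F.card ≤ 1 + 2 * ∑ l ∈ range q, N.choose (l + 1) := by
  classical
  have hinj : Set.InjOn (refl (N + 1)) (F : Set Ed) := by
    intro a ha b hb hab
    rw [← refl_refl (m := N + 1) (hF a ha).1, hab, refl_refl (hF b hb).1]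
  rw [← Finset.card_image_of_injOn hinj]
  refine G_bound N q _ ?_ ?_
  · intro e he
    obtain ⟨a, ha, rfl⟩ := Finset.mem_image.1 he
    refine ⟨refl_wf (hF a ha).1, ?_⟩
    show N + 1 - a.2.1 = 0
    rw [(hF a ha).2]; omega
  · intro e he f hf hne l hl
    obtain ⟨a, ha, rfl⟩ := Finset.mem_image.1 he
    obtain ⟨b, hb, rfl⟩ := Finset.mem_image.1 hf
    have hab : a ≠ b := fun h => hne (by rw [h])
    have := hN a ha b hb hab _ (alt_refl (hF a ha).1 (hF b hb).1 hl)
    simpa using this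

/-- **The combinatorial bound.** -/
theorem F_bound (n : ℕ) : ∀ (k : ℕ) (F : Finset Ed), (∀ e ∈ F, WF (n + 2) e) →
    NoAlt (k + 2) F → F.card ≤ 3 * n + 1 + 4 * ∑ l ∈ range k, n.choose (l + 2) := by
  induction n with
  | zero =>
    intro k F hF hN
    obtain ⟨F', A1, A2, h1, h2, h3, h4, h5, h6, h7, -⟩ := merge (n := 0) (q := k + 1) hF hN
    have e1 : F'.card = 0 := by
      rw [Finset.card_eq_zero, Finset.eq_empty_iff_forall_notMem]
      intro e he
      have := (h1 e he).lt; have := (h1 e he).le; omega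
    have e2 : A1.card = 0 := by
      rw [Finset.card_eq_zero, Finset.eq_empty_iff_forall_notMem]
      intro e he
      have := (h3 e he).1.lt; have := (h3 e he).1.le; omega
    have e3 : A2.card = 0 := by
      rw [Finset.card_eq_zero, Finset.eq_empty_iff_forall_notMem]
      intro e he
      have := (h4 e he).1.lt; have := (h4 e he).1.le; omega
    omega
  | succ n ih =>
    intro k F hF hN
    obtain ⟨F', A1, A2, h1, h2, h3, h4, h5, h6, h7, -⟩ := merge (n := n + 1) (q := k + 1) hF hN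
    have i1 := ih k F' h1 h2
    have i2 := GR_bound n k A1 h3 h5
    have i3 := GR_bound n k A2 h4 h6
    have hs : ∑ l ∈ range k, (n + 1).choose (l + 2)
        = ∑ l ∈ range k, n.choose (l + 2) + ∑ l ∈ range k, n.choose (l + 1) := by
      simp only [Nat.choose_succ_succ n, Finset.sum_add_distrib]
      ring
    omega

end Pool.Agent.X64.Mono
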