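import Pool.Agent.X64.Mono.Geom

/-!
# From monotone drawings to abstract edges
-/

namespace Pool.Agent.X64.Mono

open Set

theorem convex_lt {y A B s : ℝ} (hA : y < A) (hB : y < B) (h0 : 0 ≤ s) (h1 : s ≤ 1) :
    y < (1 - s) * A + s * B := by
  have e2 : 0 ≤ (1 - s) * (A - y) := mul_nonneg (by linarith) (by linarith)
  rcases eq_or_lt_of_le h0 with h | h
  · rw [← h]; linarith
  · have e1 : 0 < s * (B - y) := mul_pos h (by linarith)
    nlinarith

theorem convex_gt {y A B s : ℝ} (hA : A < y) (hB : B < y) (h0 : 0 ≤ s) (h1 : s ≤ 1) :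
    (1 - s) * A + s * B < y := by
  have e2 : 0 ≤ (1 - s) * (y - A) := mul_nonneg (by linarith) (by linarith)
  rcases eq_or_lt_of_le h0 with h | h
  · rw [← h]; linarith
  · have e1 : 0 < s * (y - B) := mul_pos h (by linarith)
    nlinarith

namespace Drawing

variable {n m : ℕ} (D : Drawing n m)

/-- Rank of a vertex in the lexicographic order of the positions. -/
noncomputable def rk (v : Fin n) : ℕ :=
  (Finset.univ.filter (fun w => toLex (D.pos w) < toLex (D.pos v))).card

theorem rk_lt {v w : Fin n} (h : toLex (D.pos v) < toLex (D.pos w)) : D.rk v < D.rk w := by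
  classical
  refine Finset.card_lt_card ?_
  rw [Finset.ssubset_iff_of_subset]
  · refine ⟨v, ?_, ?_⟩
    · simpa using h
    · simp
  · intro u hu
    rw [Finset.mem_filter] at hu ⊢
    exact ⟨hu.1, hu.2.trans h⟩

theorem rk_inj : Function.Injective D.rk := by
  intro v w h
  by_contra hne
  have h1 : toLex (D.pos v) ≠ toLex (D.pos w) := fun h2 => hne (D.pos_inj (toLex.injective h2))
  rcases lt_or_gt_of_ne h1 with h2 | h2
  · exact absurd h (D.rk_lt h2).ne
  · exact absurd h (D.rk_lt h2).ne'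

theorem lex_of_rk_lt {v w : Fin n} (h : D.rk v < D.rk w) : toLex (D.pos v) < toLex (D.pos w) := by
  rcases lt_trichotomy (toLex (D.pos v)) (toLex (D.pos w)) with h1 | h1 | h1
  · exact h1
  · have := D.pos_inj (toLex.injective h1)
    subst this
    omega
  · have := D.rk_lt h1
    omega

theorem rk_lt_n (v : Fin n) : D.rk v < n := by
  classical
  have h : (Finset.univ.filter (fun w => toLex (D.pos w) < toLex (D.pos v))) ⊂ Finset.univ := by
    rw [Finset.ssubset_univ_iff]
    intro h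
    have : v ∈ (Finset.univ.filter (fun w => toLex (D.pos w) < toLex (D.pos v))) := by
      rw [h]; exact Finset.mem_univ v
    simp at this
  have := Finset.card_lt_card h
  rwa [Finset.card_univ, Fintype.card_fin] at this

theorem rk_surj {p : ℕ} (hp : p < n) : ∃ v, D.rk v = p := by
  have h1 : Function.Injective (fun v : Fin n => (⟨D.rk v, D.rk_lt_n v⟩ : Fin n)) := by
    intro v w h
    exact D.rk_inj (Fin.mk.inj_iff.1 h)
  obtain ⟨v, hv⟩ := (Finite.surjective_of_injective h1) ⟨p, hp⟩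
  exact ⟨v, Fin.mk.inj_iff.1 hv⟩

theorem rk_lt_of_x {v w : Fin n} (h : (D.pos v).1 < (D.pos w).1) : D.rk v < D.rk w :=
  D.rk_lt (Prod.Lex.toLex_lt_toLex.2 (Or.inl h))

theorem x_le_of_rk {v w : Fin n} (h : D.rk v ≤ D.rk w) : (D.pos v).1 ≤ (D.pos w).1 := by
  by_contra hlt
  have := D.rk_lt_of_x (not_le.1 hlt)
  omega

/-- the left end-vertex -/
noncomputable def le (e : Fin m) : Fin n :=
  if (D.pos (D.ends e).1).1 < (D.pos (D.ends e).2).1 then (D.ends e).1 else (D.ends e).2

/-- the right end-vertex -/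
noncomputable def ri (e : Fin m) : Fin n :=
  if (D.pos (D.ends e).1).1 < (D.pos (D.ends e).2).1 then (D.ends e).2 else (D.ends e).1

variable {D}

theorem Monotone.exists_gr (hM : D.Monotone) (e : Fin m) :
    ∃ h, Gr (D.curve e) (D.pos (D.le e)).1 (D.pos (D.ri e)).1 h := by
  obtain ⟨h, hh⟩ := Mono.exists_gr (D.cont e) (hM e)
  refine ⟨h, ?_⟩
  rw [D.start e, D.finish e] at hh
  unfold Drawing.le Drawing.ri
  split_ifs with h1
  · rwa [min_eq_left h1.le, max_eq_right h1.le] at hh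
  · rwa [min_eq_right (not_lt.1 h1), max_eq_left (not_lt.1 h1)] at hh

/-- the height function of the edge `e` -/
noncomputable def hh (hM : D.Monotone) (e : Fin m) : ℝ → ℝ := (hM.exists_gr e).choose

theorem gr (hM : D.Monotone) (e : Fin m) :
    Gr (D.curve e) (D.pos (D.le e)).1 (D.pos (D.ri e)).1 (hh hM e) := (hM.exists_gr e).choose_spec

theorem ends_cases (e : Fin m) : ((D.ends e).1 = D.le e ∧ (D.ends e).2 = D.ri e) ∨
    ((D.ends e).1 = D.ri e ∧ (D.ends e).2 = D.le e) := by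
  unfold Drawing.le Drawing.ri
  split_ifs
  · exact Or.inl ⟨rfl, rfl⟩
  · exact Or.inr ⟨rfl, rfl⟩

theorem hh_le (hM : D.Monotone) (e : Fin m) : hh hM e (D.pos (D.le e)).1 = (D.pos (D.le e)).2 := by
  have z0 : (0 : ℝ) ∈ Icc (0 : ℝ) 1 := ⟨le_rfl, zero_le_one⟩
  have z1 : (1 : ℝ) ∈ Icc (0 : ℝ) 1 := ⟨zero_le_one, le_rfl⟩
  have g0 := (gr hM e).eq 0 z0
  have g1 := (gr hM e).eq 1 z1
  rw [D.start e] at g0
  rw [D.finish e] at g1
  rcases ends_cases (D := D) e with h | h
  · rwa [h.1] at g0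
  · rwa [h.2] at g1

theorem hh_ri (hM : D.Monotone) (e : Fin m) : hh hM e (D.pos (D.ri e)).1 = (D.pos (D.ri e)).2 := by
  have z0 : (0 : ℝ) ∈ Icc (0 : ℝ) 1 := ⟨le_rfl, zero_le_one⟩
  have z1 : (1 : ℝ) ∈ Icc (0 : ℝ) 1 := ⟨zero_le_one, le_rfl⟩
  have g0 := (gr hM e).eq 0 z0
  have g1 := (gr hM e).eq 1 z1
  rw [D.start e] at g0
  rw [D.finish e] at g1
  rcases ends_cases (D := D) e with h | h
  · rwa [h.2] at g1
  · rwa [h.1] at g0

/-- An edge passes through no vertex other than its ends. -/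
theorem hh_ne (hM : D.Monotone) (e : Fin m) {v : Fin n} (hx : (D.pos v).1 ∈
    Icc (D.pos (D.le e)).1 (D.pos (D.ri e)).1) (h1 : v ≠ D.le e) (h2 : v ≠ D.ri e) :
    hh hM e (D.pos v).1 ≠ (D.pos v).2 := by
  intro hcon
  obtain ⟨t, ht, htx⟩ := (gr hM e).surj _ hx
  have hty := (gr hM e).eq t ht
  rw [htx, hcon] at hty
  have hp : D.curve e t = D.pos v := Prod.ext htx hty.symm
  have hends : v ≠ (D.ends e).1 ∧ v ≠ (D.ends e).2 := by
    rcases ends_cases (D := D) e with h | h <;> rw [h.1, h.2] <;> exact ⟨by assumption, by assumption⟩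
  rcases eq_or_lt_of_le ht.1 with h0 | h0
  · rw [← h0, D.start e] at hp
    exact hends.1 (D.pos_inj hp).symm
  rcases eq_or_lt_of_le ht.2 with h3 | h3
  · rw [h3, D.finish e] at hp
    exact hends.2 (D.pos_inj hp).symm
  exact D.avoid e t ⟨h0, h3⟩ v hp

/-- the abstract edge of the edge `e` -/
noncomputable def ab (hM : D.Monotone) (e : Fin m) : Ed :=
  (D.rk (D.le e), D.rk (D.ri e), by
    classical exact (Finset.univ.filter (fun v => (D.rk (D.le e) < D.rk v ∧ D.rk v < D.rk (D.ri e)) ∧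
      (D.pos v).2 < hh hM e (D.pos v).1)).image D.rk)

theorem ab_wf (hM : D.Monotone) (e : Fin m) : WF n (ab hM e) := by
  classical
  refine ⟨D.rk_lt_of_x (gr hM e).lt, D.rk_lt_n _, ?_⟩
  intro p hp
  simp only [ab, Finset.mem_image, Finset.mem_filter] at hp
  obtain ⟨v, hv, rfl⟩ := hp
  exact hv.2.1

/-- The height of an abstract edge is the sign of the height of the edge over the vertex. -/
theorem ht_ab (hM : D.Monotone) (e : Fin m) {v : Fin n} (hv : In (ab hM e) (D.rk v)) :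
    (ht (ab hM e) (D.rk v) = 0 ∧ hh hM e (D.pos v).1 = (D.pos v).2) ∨
    (ht (ab hM e) (D.rk v) = 1 ∧ (D.pos v).2 < hh hM e (D.pos v).1) ∨
    (ht (ab hM e) (D.rk v) = -1 ∧ hh hM e (D.pos v).1 < (D.pos v).2) := by
  classical
  by_cases h1 : v = D.le e
  · left
    subst h1
    exact ⟨by simp [ht, ab], hh_le hM e⟩
  by_cases h2 : v = D.ri e
  · left
    subst h2
    exact ⟨by simp [ht, ab], hh_ri hM e⟩
  right
  have hle : D.rk (D.le e) ≤ D.rk v := hv.1
  have hri : D.rk v ≤ D.rk (D.ri e) := hv.2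
  have h1' : D.rk v ≠ D.rk (D.le e) := fun h => h1 (D.rk_inj h)
  have h2' : D.rk v ≠ D.rk (D.ri e) := fun h => h2 (D.rk_inj h)
  have hne := hh_ne hM e ⟨D.x_le_of_rk hle, D.x_le_of_rk hri⟩ h1 h2
  have hmem : D.rk v ∈ (ab hM e).2.2 ↔ (D.pos v).2 < hh hM e (D.pos v).1 := by
    simp only [ab, Finset.mem_image, Finset.mem_filter, Finset.mem_univ, true_and]
    constructor
    · rintro ⟨w, hw, hwv⟩
      have := D.rk_inj hwv
      subst this
      exact hw.2
    · intro h
      exact ⟨v, ⟨⟨by omega, by omega⟩, h⟩, rfl⟩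
  have hif : ¬ (D.rk v = (ab hM e).1 ∨ D.rk v = (ab hM e).2.1) := by
    rintro (h | h)
    · exact h1' h
    · exact h2' h
  rcases lt_or_gt_of_ne hne with h | h
  · right
    refine ⟨?_, h⟩
    simp only [ht]
    rw [if_neg hif, if_neg (fun hc => absurd (hmem.1 hc) (not_lt.2 h.le))]
  · left
    refine ⟨?_, h⟩
    simp only [ht]
    rw [if_neg hif, if_pos (hmem.2 h)]

theorem hh_lt_of_ht (hM : D.Monotone) {e f : Fin m} {v : Fin n} (he : In (ab hM e) (D.rk v))
    (hf : In (ab hM f) (D.rk v)) (h : ht (ab hM e) (D.rk v) < ht (ab hM f) (D.rk v)) :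
    hh hM e (D.pos v).1 < hh hM f (D.pos v).1 := by
  rcases ht_ab hM e he with a | a | a <;> rcases ht_ab hM f hf with b | b | b <;>
    rw [a.1, b.1] at h <;> first
    | (exfalso; omega)
    | (have := a.2; have := b.2; linarith)

/-- Alternating sequences yield crossings. -/
theorem crossings_of_alt (hM : D.Monotone) {e f : Fin m} : ∀ (l : List ℕ) (v : Fin n),
    Alt (ab hM e) (ab hM f) (D.rk v :: l) →
    ∃ C : Finset (ℝ × ℝ), (C : Set (ℝ × ℝ)) ⊆ D.crossings e f ∧ C.card = l.length ∧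
      ∀ c ∈ C, (D.pos v).1 < (D.curve e c.1).1 := by
  classical
  intro l
  induction l with
  | nil =>
    intro v _
    exact ⟨∅, by simp, rfl, by simp⟩
  | cons p l ih =>
    intro v hA
    obtain ⟨hA1, hA2⟩ := hA
    rw [List.isChain_cons_cons] at hA2
    obtain ⟨⟨hvp, hsgn⟩, hch⟩ := hA2
    obtain ⟨i1, i2, -⟩ := hA1 (D.rk v) (by simp)
    obtain ⟨j1, j2, -⟩ := hA1 p (by simp)
    have hpn : p < n := by
      have h1 : p ≤ D.rk (D.ri e) := j1.2
      have := D.rk_lt_n (D.ri e)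
      omega
    obtain ⟨w, rfl⟩ := D.rk_surj hpn
    obtain ⟨C, hC1, hC2, hC3⟩ := ih w ⟨fun q hq => hA1 q (List.mem_cons_of_mem _ hq), hch⟩
    have hxle : (D.pos v).1 ≤ (D.pos w).1 := D.x_le_of_rk hvp.le
    set φ : ℝ → ℝ := fun x => hh hM e x - hh hM f x with hφ
    have hs : (φ (D.pos v).1 < 0 ∧ 0 < φ (D.pos w).1) ∨ (0 < φ (D.pos v).1 ∧ φ (D.pos w).1 < 0) := by
      rcases mul_neg_iff.1 hsgn with ⟨a, b⟩ | ⟨a, b⟩
      · right
        have a' := hh_lt_of_ht hM i2 i1 (by omega)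
        have b' := hh_lt_of_ht hM j1 j2 (by omega)
        exact ⟨by simp only [hφ]; linarith, by simp only [hφ]; linarith⟩
      · left
        have a' := hh_lt_of_ht hM i1 i2 (by omega)
        have b' := hh_lt_of_ht hM j2 j1 (by omega)
        exact ⟨by simp only [hφ]; linarith, by simp only [hφ]; linarith⟩
    have e1 : (D.pos (D.le e)).1 ≤ (D.pos v).1 := D.x_le_of_rk i1.1
    have e2 : (D.pos w).1 ≤ (D.pos (D.ri e)).1 := D.x_le_of_rk j1.2
    have f1 : (D.pos (D.le f)).1 ≤ (D.pos v).1 := D.x_le_of_rk i2.1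
    have f2 : (D.pos w).1 ≤ (D.pos (D.ri f)).1 := D.x_le_of_rk j2.2
    have hcont : ContinuousOn φ (Icc (D.pos v).1 (D.pos w).1) :=
      ((gr hM e).hcont.mono (Icc_subset_Icc e1 e2)).sub ((gr hM f).hcont.mono (Icc_subset_Icc f1 f2))
    obtain ⟨x, hx, hx0⟩ : ∃ x ∈ Ioo (D.pos v).1 (D.pos w).1, φ x = 0 := by
      rcases hs with ⟨a, b⟩ | ⟨a, b⟩
      · have := intermediate_value_Ioo hxle hcont (show (0 : ℝ) ∈ Ioo (φ (D.pos v).1) (φ (D.pos w).1) from ⟨a, b⟩)
        exact this
      · have := intermediate_value_Ioo' hxle hcont (show (0 : ℝ) ∈ Ioo (φ (D.pos w).1) (φ (D.pos v).1) from ⟨b, a⟩)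
        exact this
    obtain ⟨s, hs1, hs2⟩ := (gr hM e).ioo (x := x) ⟨by linarith [hx.1], by linarith [hx.2]⟩
    obtain ⟨t, ht1, ht2⟩ := (gr hM f).ioo (x := x) ⟨by linarith [hx.1], by linarith [hx.2]⟩
    have heq : D.curve e s = D.curve f t := by
      rw [hs2, ht2]
      have : hh hM e x = hh hM f x := by simp only [hφ] at hx0; linarith
      rw [this]
    have hnot : (s, t) ∉ C := by
      intro hmem
      have := hC3 _ hmem
      rw [hs2] at this
      simp only at this
      linarith [hx.2]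
    refine ⟨insert (s, t) C, ?_, ?_, ?_⟩
    · intro c hc
      rw [Finset.mem_coe, Finset.mem_insert] at hc
      rcases hc with rfl | hc
      · exact ⟨hs1, ht1, heq⟩
      · exact hC1 hc
    · rw [Finset.card_insert_of_notMem hnot, hC2, List.length_cons]
    · intro c hc
      rw [Finset.mem_insert] at hc
      rcases hc with rfl | hc
      · rw [hs2]
        exact hx.1
      · have := hC3 c hc
        linarith

/-- Edges with the same abstract edge are parallel and homotopic. -/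
theorem homotopic_of_ab (hM : D.Monotone) {e f : Fin m} (h : ab hM e = ab hM f) :
    (D.ends e = D.ends f ∨ D.ends e = (D.ends f).swap) ∧ D.Homotopic e f := by
  classical
  have hl : D.le e = D.le f := D.rk_inj (congrArg Prod.fst h)
  have hr : D.ri e = D.ri f := D.rk_inj (congrArg (fun x => x.2.1) h)
  have key : ∀ g : ℝ → ℝ × ℝ, Gr g (D.pos (D.le f)).1 (D.pos (D.ri f)).1 (hh hM f) →
      D.curve e 0 = g 0 → D.curve e 1 = g 1 →
      ∃ H : ℝ × ℝ → ℝ × ℝ, ContinuousOn H (Icc 0 1 ×ˢ Icc 0 1) ∧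
      (∀ t ∈ Icc (0 : ℝ) 1, H (0, t) = D.curve e t) ∧ (∀ t ∈ Icc (0 : ℝ) 1, H (1, t) = g t) ∧
      (∀ s ∈ Icc (0 : ℝ) 1, H (s, 0) = D.curve e 0 ∧ H (s, 1) = D.curve e 1) ∧
      ∀ s ∈ Icc (0 : ℝ) 1, ∀ t ∈ Icc (0 : ℝ) 1, ∀ x, x ≠ (D.ends e).1 → x ≠ (D.ends e).2 →
        H (s, t) ≠ D.pos x := by
    intro g hg h0 h1
    rw [← hl, ← hr] at hg
    obtain ⟨H, H1, H2, H3, H4, H5⟩ := (gr hM e).homotopy hg h0 h1
    refine ⟨H, H1, H2, H3, H4, ?_⟩
    intro s hs t ht v hv1 hv2 hcon
    obtain ⟨a, b⟩ := H5 s hs t ht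
    rw [hcon] at a b
    have hvl : v ≠ D.le e ∧ v ≠ D.ri e := by
      rcases ends_cases (D := D) e with h | h <;> rw [h.1] at hv1 <;> rw [h.2] at hv2 <;>
        exact ⟨by assumption, by assumption⟩
    have hs0 := hs.1
    have hs1 := hs.2
    rcases eq_or_lt_of_le a.1 with a1 | a1
    · -- above the left end
      rw [← a1, hh_le hM e, hl, hh_le hM f] at b
      apply hvl.1
      apply D.pos_inj
      refine Prod.ext a1.symm ?_
      rw [b, hl]; ring
    rcases eq_or_lt_of_le a.2 with a2 | a2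
    · rw [a2, hh_ri hM e, hr, hh_ri hM f] at b
      apply hvl.2
      apply D.pos_inj
      refine Prod.ext a2 ?_
      rw [b, hr]; ring
    have r1 := D.rk_lt_of_x a1
    have r2 := D.rk_lt_of_x a2
    have i1 : In (ab hM e) (D.rk v) := ⟨r1.le, r2.le⟩
    have i2 : In (ab hM f) (D.rk v) := h ▸ i1
    have n1 := hh_ne hM e a hvl.1 hvl.2
    have n2 := hh_ne hM f (by rw [← hl, ← hr]; exact a) (by rw [← hl]; exact hvl.1)
      (by rw [← hr]; exact hvl.2)
    rcases ht_ab hM e i1 with c | c | c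
    · exact n1 c.2
    · rcases ht_ab hM f i2 with d | d | d
      · exact n2 d.2
      · have := convex_lt c.2 d.2 hs0 hs1
        linarith
      · rw [h, d.1] at c
        exact absurd c.1 (by norm_num)
    · rcases ht_ab hM f i2 with d | d | d
      · exact n2 d.2
      · rw [h, d.1] at c
        exact absurd c.1 (by norm_num)
      · have := convex_gt c.2 d.2 hs0 hs1
        linarith
  rcases ends_cases (D := D) e with he | he <;> rcases ends_cases (D := D) f with hf | hf
  · have hE : D.ends e = D.ends f := Prod.ext (by rw [he.1, hf.1, hl]) (by rw [he.2, hf.2, hr])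
    refine ⟨Or.inl hE, D.curve f, Or.inl rfl, key _ (gr hM f) ?_ ?_⟩
    · rw [D.start, D.start, hE]
    · rw [D.finish, D.finish, hE]
  · have hE : D.ends e = (D.ends f).swap :=
      Prod.ext (by rw [he.1, Prod.fst_swap, hf.2, hl]) (by rw [he.2, Prod.snd_swap, hf.1, hr])
    refine ⟨Or.inr hE, _, Or.inr rfl, key _ (gr hM f).rev ?_ ?_⟩
    · simp only [sub_zero]
      rw [D.start, D.finish, hE, Prod.fst_swap]
    · simp only [sub_self]
      rw [D.start, D.finish, hE, Prod.snd_swap]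
  · have hE : D.ends e = (D.ends f).swap :=
      Prod.ext (by rw [he.1, Prod.fst_swap, hf.2, hr]) (by rw [he.2, Prod.snd_swap, hf.1, hl])
    refine ⟨Or.inr hE, _, Or.inr rfl, key _ (gr hM f).rev ?_ ?_⟩
    · simp only [sub_zero]
      rw [D.start, D.finish, hE, Prod.fst_swap]
    · simp only [sub_self]
      rw [D.start, D.finish, hE, Prod.snd_swap]
  · have hE : D.ends e = D.ends f := Prod.ext (by rw [he.1, hf.1, hr]) (by rw [he.2, hf.2, hl])
    refine ⟨Or.inl hE, D.curve f, Or.inl rfl, key _ (gr hM f) ?_ ?_⟩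
    · rw [D.start, D.start, hE]
    · rw [D.finish, D.finish, hE]

end Drawing

/-- The refined bound. -/
theorem drawing_bound {n m k : ℕ} (D : Drawing (n + 2) m) (hM : D.Monotone) (hH : D.NonHomotopic)
    (hk : D.CrossLe k) : m ≤ 3 * n + 1 + 4 * ∑ l ∈ Finset.range k, n.choose (l + 2) := by
  classical
  have hinj : Function.Injective (Drawing.ab hM) := by
    intro e f h
    by_contra hne
    obtain ⟨h1, h2⟩ := Drawing.homotopic_of_ab hM h
    exact hH e f hne h1 h2
  have hcard : (Finset.univ.image (Drawing.ab hM)).card = m := by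
    rw [Finset.card_image_of_injective _ hinj, Finset.card_univ, Fintype.card_fin]
  rw [← hcard]
  refine F_bound n k _ ?_ ?_
  · intro e he
    obtain ⟨a, -, rfl⟩ := Finset.mem_image.1 he
    exact Drawing.ab_wf hM a
  · intro e he f hf hne l hl
    obtain ⟨a, -, rfl⟩ := Finset.mem_image.1 he
    obtain ⟨b, -, rfl⟩ := Finset.mem_image.1 hf
    rcases l with _ | ⟨p, l⟩
    · simp
    have hab : a ≠ b := fun h => hne (by rw [h])
    have hpn : p < n + 2 := by
      have h1 : p ≤ D.rk (D.ri a) := (hl.1 p (by simp)).1.2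
      have := D.rk_lt_n (D.ri a)
      omega
    obtain ⟨v, rfl⟩ := D.rk_surj hpn
    obtain ⟨C, hC1, hC2, -⟩ := Drawing.crossings_of_alt hM l v hl
    have h1 : (C : Set (ℝ × ℝ)).encard ≤ k := (Set.encard_le_encard hC1).trans (hk a b hab)
    rw [Set.encard_coe_eq_coe_finsetCard, Nat.cast_le] at h1
    rw [List.length_cons]
    omega

theorem no_edges {n m : ℕ} (hn : n < 2) (D : Drawing n m) (hM : D.Monotone) : m = 0 := by
  by_contra hm
  have e : Fin m := ⟨0, by omega⟩
  have h1 := (Drawing.gr hM e).lt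
  have h2 : D.le e = D.ri e := by
    have := (D.le e).2
    have := (D.ri e).2
    apply Fin.ext
    omega
  rw [h2] at h1
  exact lt_irrefl _ h1

theorem sum_le (n k : ℕ) : 3 * n + 1 + 4 * ∑ l ∈ Finset.range k, n.choose (l + 2) ≤
    4 * ∑ l ∈ Finset.range (k + 1), (n + 2).choose (l + 1) := by
  rw [Finset.sum_range_succ']
  have h1 : ∑ l ∈ Finset.range k, n.choose (l + 2) ≤
      ∑ l ∈ Finset.range k, (n + 2).choose (l + 1 + 1) :=
    Finset.sum_le_sum fun l _ => Nat.choose_le_choose _ (by omega)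
  simp only [zero_add, Nat.choose_one_right]
  omega

theorem bound {n m k : ℕ} (D : Drawing n m) (hM : D.Monotone) (hH : D.NonHomotopic)
    (hk : D.CrossLe k) : m ≤ 4 * ∑ l ∈ Finset.range (k + 1), n.choose (l + 1) := by
  rcases Nat.lt_or_ge n 2 with hn | hn
  · rw [no_edges hn D hM]
    exact Nat.zero_le _
  · obtain ⟨n', rfl⟩ : ∃ n', n = n' + 2 := ⟨n - 2, by omega⟩
    exact (drawing_bound D hM hH hk).trans (sum_le n' k)

end Pool.Agent.X64.Mono
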