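import Pool.Agent.X64.Mono.Comb

/-!
# Monotone drawings of multigraphs
-/

namespace Pool.Agent.X64.Mono

open Set

/-- A drawing of a multigraph with `n` vertices and `m` edges (loops and parallel edges allowed). -/
structure Drawing (n m : ℕ) where
  /-- the two end-vertices of each edge -/
  ends : Fin m → Fin n × Fin n
  /-- the points representing the vertices -/
  pos : Fin n → ℝ × ℝ
  pos_inj : Function.Injective pos
  /-- the curves `φ_e : [0, 1] → ℝ²` (only the values on `[0, 1]` matter) -/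
  curve : Fin m → ℝ → ℝ × ℝ
  cont : ∀ e, ContinuousOn (curve e) (Icc 0 1)
  start : ∀ e, curve e 0 = pos (ends e).1
  finish : ∀ e, curve e 1 = pos (ends e).2
  avoid : ∀ e, ∀ t ∈ Ioo (0 : ℝ) 1, ∀ v, curve e t ≠ pos v

namespace Drawing

variable {n m : ℕ} (D : Drawing n m)

/-- The crossings of the edges `e` and `f`: parameters `s, t ∈ (0, 1)` with `φ_e(s) = φ_f(t)`. -/
def crossings (e f : Fin m) : Set (ℝ × ℝ) :=
  {p | p.1 ∈ Ioo (0 : ℝ) 1 ∧ p.2 ∈ Ioo (0 : ℝ) 1 ∧ D.curve e p.1 = D.curve f p.2}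

/-- Every two distinct edges cross at most `k` times. -/
def CrossLe (k : ℕ) : Prop := ∀ e f, e ≠ f → (D.crossings e f).encard ≤ k

/-- Every curve `φ_e` meets every vertical line at most once. -/
def Monotone : Prop :=
  ∀ e, ∀ s ∈ Icc (0 : ℝ) 1, ∀ t ∈ Icc (0 : ℝ) 1, (D.curve e s).1 = (D.curve e t).1 → s = t

/-- There is a homotopy with fixed end points from `φ_e` to `φ_f` (or to `φ_f` traversed
backwards) that avoids all vertices except the end-vertices of `e`. -/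
def Homotopic (e f : Fin m) : Prop :=
  ∃ g : ℝ → ℝ × ℝ, (g = D.curve f ∨ g = fun t => D.curve f (1 - t)) ∧
    ∃ H : ℝ × ℝ → ℝ × ℝ, ContinuousOn H (Icc 0 1 ×ˢ Icc 0 1) ∧
      (∀ t ∈ Icc (0 : ℝ) 1, H (0, t) = D.curve e t) ∧ (∀ t ∈ Icc (0 : ℝ) 1, H (1, t) = g t) ∧
      (∀ s ∈ Icc (0 : ℝ) 1, H (s, 0) = D.curve e 0 ∧ H (s, 1) = D.curve e 1) ∧
      ∀ s ∈ Icc (0 : ℝ) 1, ∀ t ∈ Icc (0 : ℝ) 1, ∀ x, x ≠ (D.ends e).1 → x ≠ (D.ends e).2 →
        H (s, t) ≠ D.pos x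

/-- No two distinct parallel edges are homotopic. -/
def NonHomotopic : Prop :=
  ∀ e f, e ≠ f → (D.ends e = D.ends f ∨ D.ends e = (D.ends f).swap) → ¬ D.Homotopic e f

end Drawing

/-- `h_mon(n, k)`: the maximum number of edges of an `n`-vertex multigraph with a drawing that is
monotone, non-homotopic, and such that every two distinct edges cross at most `k` times. -/
noncomputable def hmon (n k : ℕ) : ℕ :=
  sSup {m | ∃ D : Drawing n m, D.Monotone ∧ D.NonHomotopic ∧ D.CrossLe k}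

/-! ### Curves as graphs of functions -/

theorem exists_height {γ : ℝ → ℝ × ℝ} (hc : ContinuousOn γ (Icc 0 1))
    (hi : ∀ s ∈ Icc (0 : ℝ) 1, ∀ t ∈ Icc (0 : ℝ) 1, (γ s).1 = (γ t).1 → s = t) :
    ∃ h : ℝ → ℝ, ContinuousOn h ((fun t => (γ t).1) '' Icc 0 1) ∧
      ∀ t ∈ Icc (0 : ℝ) 1, h (γ t).1 = (γ t).2 := by
  set X : ℝ → ℝ := fun t => (γ t).1 with hX
  have hXc : ContinuousOn X (Icc 0 1) := continuous_fst.comp_continuousOn hc
  have hYc : ContinuousOn (fun t => (γ t).2) (Icc 0 1) := continuous_snd.comp_continuousOn hc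
  set g := Function.invFunOn X (Icc 0 1) with hg
  have hgX : ∀ t ∈ Icc (0 : ℝ) 1, g (X t) = t := by
    intro t ht
    have h1 : ∃ a ∈ Icc (0 : ℝ) 1, X a = X t := ⟨t, ht, rfl⟩
    exact hi _ (Function.invFunOn_mem h1) _ ht (Function.invFunOn_eq h1)
  refine ⟨fun x => (γ (g x)).2, ?_, fun t ht => by
    have := hgX t ht
    simp only [hX] at this
    simp only [this]⟩
  rw [continuousOn_iff_isClosed]
  intro C hC
  have h1 : IsClosed (Icc (0 : ℝ) 1 ∩ (fun t => (γ t).2) ⁻¹' C) :=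
    hYc.preimage_isClosed_of_isClosed isClosed_Icc hC
  have h2 : IsCompact (Icc (0 : ℝ) 1 ∩ (fun t => (γ t).2) ⁻¹' C) :=
    isCompact_Icc.of_isClosed_subset h1 inter_subset_left
  have h3 : IsCompact (X '' (Icc (0 : ℝ) 1 ∩ (fun t => (γ t).2) ⁻¹' C)) :=
    h2.image_of_continuousOn (hXc.mono inter_subset_left)
  refine ⟨_, h3.isClosed, ?_⟩
  ext x
  constructor
  · rintro ⟨hx, t, ht, rfl⟩
    refine ⟨⟨t, ⟨ht, ?_⟩, rfl⟩, t, ht, rfl⟩
    have : (γ (g (X t))).2 ∈ C := hx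
    rw [hgX t ht] at this
    exact this
  · rintro ⟨⟨t, ⟨ht, htC⟩, rfl⟩, -⟩
    refine ⟨?_, t, ht, rfl⟩
    show (γ (g (X t))).2 ∈ C
    rw [hgX t ht]
    exact htC

/-- Data of an x-monotone curve: it is the graph of a continuous function. -/
structure Gr (γ : ℝ → ℝ × ℝ) (a b : ℝ) (h : ℝ → ℝ) : Prop where
  lt : a < b
  hcont : ContinuousOn h (Icc a b)
  xcont : ContinuousOn (fun t => (γ t).1) (Icc 0 1)
  maps : ∀ t ∈ Icc (0 : ℝ) 1, (γ t).1 ∈ Icc a b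
  inj : ∀ s ∈ Icc (0 : ℝ) 1, ∀ t ∈ Icc (0 : ℝ) 1, (γ s).1 = (γ t).1 → s = t
  surj : ∀ x ∈ Icc a b, ∃ t ∈ Icc (0 : ℝ) 1, (γ t).1 = x
  eq : ∀ t ∈ Icc (0 : ℝ) 1, h (γ t).1 = (γ t).2
  ends : ((γ 0).1 = a ∧ (γ 1).1 = b) ∨ ((γ 0).1 = b ∧ (γ 1).1 = a)

theorem exists_gr {γ : ℝ → ℝ × ℝ} (hc : ContinuousOn γ (Icc 0 1))
    (hi : ∀ s ∈ Icc (0 : ℝ) 1, ∀ t ∈ Icc (0 : ℝ) 1, (γ s).1 = (γ t).1 → s = t) :
    ∃ h, Gr γ (min (γ 0).1 (γ 1).1) (max (γ 0).1 (γ 1).1) h := by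
  obtain ⟨h, h1, h2⟩ := exists_height hc hi
  have hXc : ContinuousOn (fun t => (γ t).1) (Icc 0 1) := continuous_fst.comp_continuousOn hc
  have hne : (γ 0).1 ≠ (γ 1).1 := fun h => by
    have := hi 0 ⟨le_rfl, zero_le_one⟩ 1 ⟨zero_le_one, le_rfl⟩ h
    norm_num at this
  have himg : (fun t => (γ t).1) '' Icc 0 1 = Icc (min (γ 0).1 (γ 1).1) (max (γ 0).1 (γ 1).1) := by
    rcases hXc.strictMonoOn_of_injOn_Icc' zero_le_one (fun s hs t ht hst => hi s hs t ht hst)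
      with hm | hm
    · have hlt := hm ⟨le_rfl, zero_le_one⟩ ⟨zero_le_one, le_rfl⟩ zero_lt_one
      simp only at hlt
      rw [min_eq_left hlt.le, max_eq_right hlt.le]
      exact hXc.image_Icc_of_monotoneOn zero_le_one hm.monotoneOn
    · have hlt := hm ⟨le_rfl, zero_le_one⟩ ⟨zero_le_one, le_rfl⟩ zero_lt_one
      simp only at hlt
      rw [min_eq_right hlt.le, max_eq_left hlt.le]
      exact hXc.image_Icc_of_antitoneOn zero_le_one hm.antitoneOn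
  refine ⟨h, min_lt_max.2 hne, himg ▸ h1, hXc, ?_, hi, ?_, h2, ?_⟩
  · intro t ht
    rw [← himg]
    exact ⟨t, ht, rfl⟩
  · intro x hx
    rw [← himg] at hx
    exact hx
  · rcases lt_or_gt_of_ne hne with hlt | hlt
    · left
      rw [min_eq_left hlt.le, max_eq_right hlt.le]
      exact ⟨rfl, rfl⟩
    · right
      rw [min_eq_right hlt.le, max_eq_left hlt.le]
      exact ⟨rfl, rfl⟩

theorem Gr.ioo {γ : ℝ → ℝ × ℝ} {a b : ℝ} {h : ℝ → ℝ} (G : Gr γ a b h) {x : ℝ} (hx : x ∈ Ioo a b) :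
    ∃ t ∈ Ioo (0 : ℝ) 1, γ t = (x, h x) := by
  obtain ⟨t, ht, htx⟩ := G.surj x ⟨hx.1.le, hx.2.le⟩
  have h0 : t ≠ 0 := by
    rintro rfl
    rcases G.ends with e | e
    · rw [e.1] at htx; exact absurd htx hx.1.ne
    · rw [e.1] at htx; exact absurd htx hx.2.ne'
  have h1 : t ≠ 1 := by
    rintro rfl
    rcases G.ends with e | e
    · rw [e.2] at htx; exact absurd htx hx.2.ne'
    · rw [e.2] at htx; exact absurd htx hx.1.ne
  refine ⟨t, ⟨lt_of_le_of_ne ht.1 h0.symm, lt_of_le_of_ne ht.2 h1⟩, ?_⟩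
  have := G.eq t ht
  rw [htx] at this
  exact Prod.ext htx this.symm

/-- Reversal of the parameter. -/
theorem Gr.rev {γ : ℝ → ℝ × ℝ} {a b : ℝ} {h : ℝ → ℝ} (G : Gr γ a b h) :
    Gr (fun t => γ (1 - t)) a b h := by
  have hm : ∀ t ∈ Icc (0 : ℝ) 1, 1 - t ∈ Icc (0 : ℝ) 1 := fun t ht =>
    ⟨by linarith [ht.2], by linarith [ht.1]⟩
  refine ⟨G.lt, G.hcont, ?_, fun t ht => G.maps _ (hm t ht), ?_, ?_, fun t ht => G.eq _ (hm t ht), ?_⟩
  · exact G.xcont.comp (by fun_prop) hm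
  · intro s hs t ht hst
    have := G.inj _ (hm s hs) _ (hm t ht) hst
    linarith
  · intro x hx
    obtain ⟨t, ht, htx⟩ := G.surj x hx
    exact ⟨1 - t, hm t ht, by simpa using htx⟩
  · have := G.ends
    simp only [sub_zero, sub_self]
    tauto

/-- The homotopy between two graphs of functions over the same interval. -/
theorem Gr.homotopy {γ δ : ℝ → ℝ × ℝ} {a b : ℝ} {h k : ℝ → ℝ} (G : Gr γ a b h) (K : Gr δ a b k)
    (h0 : γ 0 = δ 0) (h1 : γ 1 = δ 1) :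
    ∃ H : ℝ × ℝ → ℝ × ℝ, ContinuousOn H (Icc 0 1 ×ˢ Icc 0 1) ∧
      (∀ t ∈ Icc (0 : ℝ) 1, H (0, t) = γ t) ∧ (∀ t ∈ Icc (0 : ℝ) 1, H (1, t) = δ t) ∧
      (∀ s ∈ Icc (0 : ℝ) 1, H (s, 0) = γ 0 ∧ H (s, 1) = γ 1) ∧
      ∀ s ∈ Icc (0 : ℝ) 1, ∀ t ∈ Icc (0 : ℝ) 1, (H (s, t)).1 ∈ Icc a b ∧
        (H (s, t)).2 = (1 - s) * h (H (s, t)).1 + s * k (H (s, t)).1 := by
  set U : ℝ × ℝ → ℝ := fun p => (1 - p.1) * (γ p.2).1 + p.1 * (δ p.2).1 with hU
  have hUmem : ∀ p ∈ Icc (0 : ℝ) 1 ×ˢ Icc (0 : ℝ) 1, U p ∈ Icc a b := by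
    rintro ⟨s, t⟩ ⟨hs, ht⟩
    have e1 := G.maps t ht
    have e2 := K.maps t ht
    have := convex_Icc a b e1 e2 (by linarith [hs.2] : (0 : ℝ) ≤ 1 - s) hs.1 (by ring)
    simpa [hU] using this
  have hUc : ContinuousOn U (Icc 0 1 ×ˢ Icc 0 1) := by
    have c1 : ContinuousOn (fun p : ℝ × ℝ => (γ p.2).1) (Icc 0 1 ×ˢ Icc 0 1) :=
      G.xcont.comp continuousOn_snd (fun p hp => hp.2)
    have c2 : ContinuousOn (fun p : ℝ × ℝ => (δ p.2).1) (Icc 0 1 ×ˢ Icc 0 1) :=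
      K.xcont.comp continuousOn_snd (fun p hp => hp.2)
    exact ((continuousOn_const.sub continuousOn_fst).mul c1).add (continuousOn_fst.mul c2)
  refine ⟨fun p => (U p, (1 - p.1) * h (U p) + p.1 * k (U p)), ?_, ?_, ?_, ?_, ?_⟩
  · refine hUc.prodMk ?_
    exact ((continuousOn_const.sub continuousOn_fst).mul (G.hcont.comp hUc hUmem)).add
      (continuousOn_fst.mul (K.hcont.comp hUc hUmem))
  · intro t ht
    have e := G.eq t ht
    simp only [hU, sub_zero, one_mul, zero_mul, add_zero]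
    exact Prod.ext rfl e
  · intro t ht
    have e := K.eq t ht
    simp only [hU, sub_self, one_mul, zero_mul, zero_add]
    exact Prod.ext rfl e
  · intro s hs
    have z0 : (0 : ℝ) ∈ Icc (0 : ℝ) 1 := ⟨le_rfl, zero_le_one⟩
    have z1 : (1 : ℝ) ∈ Icc (0 : ℝ) 1 := ⟨zero_le_one, le_rfl⟩
    have e0 : U (s, 0) = (γ 0).1 := by
      simp only [hU, ← h0]; ring
    have e1 : U (s, 1) = (γ 1).1 := by
      simp only [hU, ← h1]; ring
    have g0 := G.eq 0 z0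
    have g1 := G.eq 1 z1
    have k0 := K.eq 0 z0
    have k1 := K.eq 1 z1
    rw [← h0] at k0
    rw [← h1] at k1
    constructor
    · refine Prod.ext e0 ?_
      simp only [e0, g0, k0]; ring
    · refine Prod.ext e1 ?_
      simp only [e1, g1, k1]; ring
  · intro s hs t ht
    exact ⟨hUmem (s, t) ⟨hs, ht⟩, rfl⟩

end Pool.Agent.X64.Mono
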